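import Pool.Agent.H5.PRK.S3

/-!
# PRK: norm and extension of ideal classes
-/

set_option autoImplicit false

namespace Pool.PRK

open scoped nonZeroDivisors

namespace Nclk

variable (R O : Type) [CommRing R] [IsDedekindDomain R] [CommRing O] [IsDedekindDomain O]
  [Algebra R O] [Module.Finite R O] [Module.IsTorsionFree R O]

/-- The norm of a nonzero ideal. -/
noncomputable def n0 (I : (Ideal O)⁰) : (Ideal R)⁰ :=
  ⟨Ideal.relNorm R (I : Ideal O), mem_nonZeroDivisors_of_ne_zero fun h =>
    nonZeroDivisors.ne_zero I.2 (Ideal.relNorm_eq_bot_iff.1 h)⟩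

theorem n0_mul (I J : (Ideal O)⁰) : n0 R O (I * J) = n0 R O I * n0 R O J := by
  apply Subtype.ext
  change Ideal.relNorm R ((I : Ideal O) * (J : Ideal O)) = Ideal.relNorm R (I : Ideal O) *
    Ideal.relNorm R (J : Ideal O)
  rw [map_mul]

theorem n0_class {I J : (Ideal O)⁰} (h : ClassGroup.mk0 I = ClassGroup.mk0 J) :
    ClassGroup.mk0 (n0 R O I) = ClassGroup.mk0 (n0 R O J) := by
  rw [ClassGroup.mk0_eq_mk0_iff] at h ⊢
  obtain ⟨x, y, hx, hy, hxy⟩ := h
  have hne : ∀ z : O, z ≠ 0 → Algebra.intNorm R O z ≠ 0 := by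
    intro z hz h0
    have h1 := Ideal.relNorm_singleton R z
    rw [h0, Ideal.span_singleton_eq_bot.2 rfl, Ideal.relNorm_eq_bot_iff,
      Ideal.span_singleton_eq_bot] at h1
    exact hz h1
  refine ⟨Algebra.intNorm R O x, Algebra.intNorm R O y, hne x hx, hne y hy, ?_⟩
  have h1 := congrArg (Ideal.relNorm R) hxy
  rw [map_mul, map_mul, Ideal.relNorm_singleton, Ideal.relNorm_singleton] at h1
  exact h1

/-- The norm of a class. -/
noncomputable def nc : ClassGroup O →* ClassGroup R :=
  MonoidHom.mk' (fun c => ClassGroup.mk0 (n0 R O (Function.surjInv ClassGroup.mk0_surjective c)))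
    (by
      intro a b
      rw [← map_mul, ← n0_mul]
      apply n0_class
      rw [map_mul, Function.surjInv_eq ClassGroup.mk0_surjective (a * b),
        Function.surjInv_eq ClassGroup.mk0_surjective a,
        Function.surjInv_eq ClassGroup.mk0_surjective b])

theorem nc_mk0 (I : (Ideal O)⁰) : nc R O (ClassGroup.mk0 I) = ClassGroup.mk0 (n0 R O I) := by
  change ClassGroup.mk0 (n0 R O (Function.surjInv ClassGroup.mk0_surjective _)) = _
  apply n0_class
  rw [Function.surjInv_eq ClassGroup.mk0_surjective (ClassGroup.mk0 I)]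

end Nclk

open Nclk in
/-- **NCLK.** -/
theorem nclk : NCLKStmt := by
  intro R O _ _ _ _ _ _ _
  refine ⟨nc R O, ClassGroup.extendedHom R O, ?_, ?_⟩
  · intro I J h
    rw [nc_mk0]
    congr 1
    exact Subtype.ext h.symm
  · intro d
    obtain ⟨J, rfl⟩ := ClassGroup.mk0_surjective d
    rw [ClassGroup.extendedHom_mk0, nc_mk0, ← map_pow]
    congr 1
    apply Subtype.ext
    change Ideal.relNorm R ((J : Ideal R).map (algebraMap R O)) =
      ((J ^ Module.finrank R O : (Ideal R)⁰) : Ideal R)
    rw [Ideal.relNorm_algebraMap, SubmonoidClass.coe_pow]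

end Pool.PRK
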